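import Pool.Agent.R166.SR.Reg

/-!
# MP_51fc19_nt: regulators and complements of elementary arrangements

An elementary arrangement is a finite union of hypersurfaces of the forms `x_i x_j = x_k`,
`x_i + x_j = x_k`, `x_i = 1` in an affine space over `ℤ`. Its complement `compl a` is the spectrum of
`ℤ[x_1, …, x_N, 1/a]`, where `a` is the product of the polynomials `x_i x_j - x_k`, `x_i + x_j - x_k`,
`x_i - 1`, a smooth affine scheme over `ℤ`, open in affine space.

`RegTheory` lists the properties of the regulators `CH_{-j}(X, i)_ℝ → D_j(X, i)` which are used:
localization sequences. The statement `T.Iso j X` says that they are isomorphisms for all `i`. For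
regular `X` of dimension `d` we have `CH_{-j}(X, i)_ℝ = H^{2q-i}(X, ℚ(q))_ℝ`, `q = d + j`, so for `j ≥ 1` it
is Beilinson's conjecture in the weight `q > d` and all degrees `2q - i`, and for `j = 0` it is the
assertion Q1 of the problem (`Weight0.q1At`), if `X` is flat and proper.

1. For every `j ≥ 0`: the regulators are isomorphisms in the weight `j` for all separated schemes of
finite type over `ℤ` if and only if this is so for the complements of elementary arrangements.

2. If this is so for a number `j ≥ 1`, then `CH_{-j}(X, i)_ℝ = 0` for all `i` and all separated schemes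
`X` of finite type over a finite field.

3. If this is so for `j = 0`, then Q1 holds for all connected regular schemes which are proper and flat
over `ℤ`.

The proof. The five lemma shows that the property goes from two of the schemes `Z`, `X`, `U = X - Z` to the
third. Every finitely generated ring is `ℤ[x_1, …, x_N]` modulo elementary polynomials (R904.EL.Elem);
so every affine scheme of finite type is the complement in an affine space of a finite union of opens
`a ≠ 0`, whose intersections are complements of elementary arrangements. Mayer-Vietoris and noetherian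
induction (R904.EL.Main, of helper904) give the rest.
-/

set_option autoImplicit false

open CategoryTheory AlgebraicGeometry
open Pool.Agent.R904.CU Pool.Agent.R904.EL Pool.Agent.R166.SR

namespace Pool.Agent.Results.MP_51fc19_nt.ElementaryArrangements

/-- The regulators of weight `j` are isomorphisms for the complements of elementary arrangements. -/
def ArrIso (T : RegTheory) (j : ℕ) : Prop :=
  ∀ (σ : Type) [Fintype σ], ∀ a ∈ elemProds ({1} : Set ℤ) σ, T.Iso j (compl a)

/-- **Main theorem.** -/
theorem result (T : RegTheory) (W : T.Weight0) :
    -- all schemes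
    (∀ j : ℕ, (∀ (X : Scheme.{0}) (f : X ⟶ Spec (.of ℤ)), SepFinType ℤ X f → T.Iso j X) ↔
      ArrIso T j) ∧
    -- schemes over finite fields
    (∀ j : ℕ, 1 ≤ j → ArrIso T j → ∀ (X : Scheme.{0}) (f : X ⟶ Spec (.of ℤ)), SepFinType ℤ X f →
      (∃ N : ℕ, 0 < N ∧ (N : Γ(X, ⊤)) = 0) → ∀ i, Subsingleton (T.M.H j i X)) ∧
    -- the problem
    (ArrIso T 0 → ∀ X : Scheme.{0}, RegTheory.IsArithmetic X → W.Q1At X) := by
  have key : ∀ j : ℕ, (∀ (X : Scheme.{0}) (f : X ⟶ Spec (.of ℤ)), SepFinType ℤ X f → T.Iso j X) ↔
      ArrIso T j := fun j => Pool.Agent.R166.SZ.all_iff (T.glue_iso j)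
  refine ⟨key, fun j hj h X f hf hN i => ?_, fun h X hX => ?_⟩
  · have h1 := T.vertical j i X hj hN
    exact ((key j).2 h X f hf i).1.subsingleton
  · obtain ⟨f, hf, h1⟩ := id hX
    exact W.q1At hX ((key 0).2 h X f ⟨inferInstance, inferInstance, inferInstance⟩)

end Pool.Agent.Results.MP_51fc19_nt.ElementaryArrangements
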