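import Pool.Agent.R387.AZ.Main

/-!
# The choice of the model, vertical schemes and zero-cycles

Let `S` be a class of regular connected schemes proper over `ℤ`, for example all those which are
projective over `ℤ`; they may be flat over `ℤ` or vertical, that is varieties over finite fields. For
`X` in `S` of Krull dimension `d` Q1 says that for `p < 2 d` the regulator
`H^p(X, ℚ(d))_ℝ → H_D^p(X_{ℚ/ℝ}, ℝ(d))` is an isomorphism, except for flat `X` and `p = 2 d - 1`, where
the cokernel is `CH^0(X_ℚ)^*_ℝ = ℝ`. (For vertical `X` this means `H^p(X, ℚ(d)) = 0`; the problem is
about flat `X`.)

We assume the formal properties of motivic cohomology, of Deligne cohomology, of regulators and of the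
action of the cycles on `X ×_ℤ Y` (`IsRegTheory`), which are known.

**Theorem.** (1) Let `X`, `Y t` be flat, and let the Chow motive of `X_ℚ` be a direct summand of those
of the `(Y t)_ℚ`. If `H^p(Z, ℚ(q)) = 0` for all vertical `Z` with `dim Z < d`, `q > dim Z`, `p < 2 q`, then
Q1 for all `Y t` implies Q1 for `X`. In particular, under this condition on vertical schemes, Q1 does not
depend on the choice of the regular model `X` of `X_ℚ`.

(2) If the zero-cycles of `X` come from the `Y t`, and for all schemes of dimension `< d` the
regulators are isomorphisms in all weights `q > dim` and degrees `p < 2 q`, then Q1 for all `Y t` implies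
Q1 for `X`; the same holds for the weights `q > d` in place of Q1.

Let `T` be a class of flat schemes with rational generic fibres which contains enough blow-ups of
the projective spaces over `ℤ` along flat or vertical schemes.

(3) Q1 holds for all flat `X` such that the zero-cycles of `X_ℚ` are supported in dimension `≤ r` if
and only if it holds for `T` and for all flat schemes with generic fibre of dimension `≤ r`. More
generally the zero-cycles may come from an arbitrary class `G` of flat schemes, for example from the
ones whose generic fibre is not uniruled (then one obtains all flat projective `X`).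

(4) Q1 holds for `T` if and only if for all schemes, flat or vertical, the regulators are isomorphisms
in all weights `q > dim` and degrees `p < 2 q` (for this we use that Q1 is known for rings of
integers). In particular, Q1 for `T` implies `H^p(Z, ℚ(q)) = 0` for all vertical `Z` and all `q > dim Z`,
`p < 2 q`.
-/

open Pool.Agent.R387.AZ

namespace Pool.Agent.Results.MP_51fc19_nt.ModelsAndZeroCycles

theorem result {S : VarClass} {C : CycleData S} {R : RegData S} (h : IsRegTheory C R) :
    (GovernedByGeneric C R ∧ Models R ∧ GovernedByZeroCycles C R) ∧
    ∀ T : S.Obj → Prop, IsRationalClass C R T →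
      (∀ r, ForSupport C R T r) ∧
      (∀ G : S.Obj → Prop, (∀ Y, G Y → Y.IsFlat) → ForClass C R T G) ∧
      ((∀ X : S.Obj, X.IsFlat → X.dim ≤ 1 → Q1 R X) → RationalIffHigh R T) ∧
      ((∀ B, T B → Q1 R B) → ∀ m, VerticalVanishing R m) :=
  ⟨⟨governedByGeneric h, models h, governedByZeroCycles h⟩, fun _ hT =>
    ⟨fun r => forSupport h hT r, fun G hG => forClass h hT G hG, fun h0 => rationalIffHigh h hT h0,
      fun H m => vertical_of_rational h hT H m⟩⟩

end Pool.Agent.Results.MP_51fc19_nt.ModelsAndZeroCycles
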