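import Pool.Agent.R387.NT.Main

/-!
# Regulators near the top degree, and blow-ups of projective spaces

Let `S` be a class of regular connected schemes proper over `ℤ`, flat or not, for example all those
which are projective over `ℤ`. For flat `X` of dimension `d` the question Q1 is about the regulators in
the weight `d` and the degrees `2 d - 1 - i`, `i ≥ 0`. We assume the projective bundle formula and the
blow-up formula for motivic cohomology, Deligne cohomology and regulators, the vanishing of the Deligne
cohomology in degrees `> 2 d - 1`, and the theorems of Dirichlet and Borel for `Spec ℤ`. A tower is a
scheme which is obtained from a projective space over `ℤ` by finitely many blow-ups along schemes in `S`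
(flat or not); so it is flat over `ℤ` with a rational generic fibre. Let `φ` be any unbounded function
on the natural numbers, for example one which grows very slowly.

**Theorem.** (1) The following are equivalent: Q1 for all flat `X` in the degrees `2 d - 1 - i` with
`i ≤ φ(d)`; Q1 for all flat `X`; Q1 for all flat `X` together with the statement that for all `X`, flat or
not, and all weights `q > dim X` the regulators are isomorphisms in the degrees `< 2 q`.

(2) The following are equivalent: Q1 for all towers in the degrees `2 d - 1 - i` with `i ≤ φ(d)`; Q1 for
all towers; the regulators in the weight `q = dim X + 1` are isomorphisms in the degrees `< 2 q` for all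
`X`, flat or not; the same for all weights `q > dim X`.
-/

open Pool.Agent.R387.EM (VarClass)
open Pool.Agent.R387.NT

namespace Pool.Agent.Results.MP_51fc19_nt.NearTopDegrees

theorem result {S : VarClass} {D : Data S} (h : IsData D) (φ : ℕ → ℕ)
    (hφ : ¬ BddAbove (Set.range φ)) : AllFlat D φ ∧ AllTowers D φ :=
  ⟨allFlat h hφ, allTowers h hφ⟩

end Pool.Agent.Results.MP_51fc19_nt.NearTopDegrees
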