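import Pool.Agent.R898.KCM

/-!
# The conjecture in the top weight for products of curves, regular surfaces, complete intersections

Let `𝒱` be a class of smooth projective varieties over `ℚ` which is closed under products and contains
the projective spaces, `C` their Chow groups with rational coefficients and `W` a Weil cohomology
theory. We call `X` elementary if outside of the degree `dim X` its cohomology consists of the
multiples of the powers of a divisor class: all curves, all regular surfaces and all complete
intersections of positive dimension are elementary.

Let `i ≥ 0` be the number of the problem and `j = i + 1`. Let `gr X n = H^(2n-j)(X, ℚ(n))_ℤ` be the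
integral motivic cohomology of `X` (Scholl; the image of `H^(2n-j)(𝒳, ℚ(n))` if `X` has a regular
proper model `𝒳`, and isomorphic to it if the statement of Flach in the problem file holds). We use
only that correspondences act on these spaces. The problem is about the weight
`n = d = dim X + 1`, for which `2n - j = 2d - 1 - i`. Let `o X p l` be the expected dimension: the
dimension of the Deligne cohomology `H_𝒟^(l+1)(X, p; ℝ(n))`, `2n = l + j + 1`, of the motive `(X, p)`, or
for `j = 1` this dimension minus the rank of the group of algebraic classes in `H^l(X, p)`, which for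
`n = d` is the rank of `CH^0(X)`. Instead of this `o` may be any function which is additive and which
depends only on the isomorphism class of `H^l(X, p)` up to Tate twists.

**Theorem.** (1) Suppose that the products `X` of elementary varieties satisfy Q1 numerically: the
dimension of `H^(2d-1-i)(X, ℚ(d))_ℤ` is the expected one. Then for these `X` and all weights
`n ≥ dim X + 1` the dimension of `H^(2n-j)(X, ℚ(n))_ℤ` is the expected one (for `l = 2n - j - 1 < 0` it
is zero).

(2) Then the Chow–Künneth projectors `π_l`, `l ≠ 2n - j - 1`, of `X` annihilate
`H^(2n-j)(X, ℚ(n))_ℤ`, `n ≥ dim X + 1`. For example `H^(2d-1-i)(X, ℚ(d))_ℤ` is contained in the part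
`π_(2d-2-i)`.

(3) Suppose moreover that every variety in `𝒱` is dominated by a product of elementary varieties (for
example `𝒱` may be the class of all the varieties dominated by products of curves, which contains the
abelian varieties and the Fermat hypersurfaces) and that Beilinson's formula
`dim CH^(r+1)(X)_hom = ord_(s=r+1) L(H^(2r+1)(X), s)` holds for the products of elementary varieties of
dimension `2r + 1`. Then for all `X`, `Y` in `𝒱` every correspondence from `X` to `Y` which acts as zero
on `H^(2n-j-1)(X)` acts as zero on `H^(2n-j)(X, ℚ(n))_ℤ`, `n ≥ dim X + 1` (if the weight of the target is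
also larger than its dimension).
-/

open Pool.Agent.H914 Pool.Agent.R903 Pool.Agent.R898

universe u v w

namespace Pool.Agent.Results.MP_51fc19_nt.ProductsTopWeight

theorem result {k : Type u} [Field k] {𝒱 : VarClass k} {C : ChowTheory.{u, v} 𝒱}
    (W : WeilTheory.{u, v, w} C) (hPol : C.Polarized) (hP : ∀ s, ∃ P, KA.IsProj C s P)
    (T : KA.MotCoh C) (j : ℕ) (o : ∀ X : 𝒱.Obj, C.CH (X.prod X) → ℕ → ℤ)
    (ho : KA.IsOrder W o) :
    (KA.DimFor W T j o KA.TopWeight ↔ KA.DimFor W T j o KA.HighWeight) ∧
      (KA.DimFor W T j o KA.TopWeight →
        ∀ X, KA.IsProduct W X → KA.HighConcentrated W T j X) ∧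
      (KA.DimFor W T j o KA.TopWeight →
        (∀ X, ∃ Z, KA.IsProduct W Z ∧ KA.Dominates C Z X) →
        ∀ o', KA.IsOrder W o' → KA.BBMiddle W o' → KA.HighOnlyH W T j) :=
  ⟨⟨fun hM => KA.highDim hP ho hM, fun h X n hX hn => h X n hX (by
      unfold KA.TopWeight at hn; unfold KA.HighWeight; omega)⟩,
    fun hM _ hX => KA.highConcentrated hP ho hM hX,
    fun hM hdom _ ho' hM' => KA.highOnlyH hP ho hM hPol hdom ho' hM'⟩

end Pool.Agent.Results.MP_51fc19_nt.ProductsTopWeight
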